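import Pool.Agent.H433.CR.Main

/-!
# Frey's inequality for the relative Faltings heights of all the quadratic twists of 100 per cent of
# the hyperelliptic curves `e y ^ 2 = φ(x) - t`, uniformly for all the polynomials `φ` with rational
# critical points, in every genus and over every number field

`MP_6babc4_nt` (Q1, a partial answer for every dimension `g`). Frey's conjecture is
`h_F(A) ≤ κ log N_A + c` for the relative Faltings heights of all the abelian varieties of dimension
`g` over a number field `K`. We prove it, with the slope `(4 g + 3) / (16 g + 8) + ε ≤ 7 / 24 + ε`,
for the Jacobians of ALL the quadratic twists of 100 per cent of the curves `y ^ 2 = φ(x) - t` of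
genus `g` (with a power saving for the exceptional `t`), uniformly for all the polynomials `φ` of
degree `2 g + 1` or `2 g + 2` with rational critical points (of bounded size). The slope is the best
possible one for this family (the twists by numbers which have odd order at all the primes dividing
the discriminant of `φ - t` once have this slope in the limit; this is not proved here). The Galois group of the Weierstrass
points is the full symmetric group for 100 per cent of the `t`. (The library has the inequality with
an unspecified slope `κ(F)` for almost all the members of every family `F` of hyperelliptic curves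
with a node, and with the slope `g / 2 + ε` for all the polynomials, ordered by the size of the
coefficients; `MP_6babc4_nt`, TwistsOfAbelianCovers is for rational branch points; see also
`MP_c59389_nt`, RationalCriticalPoints for the stable height.)

The curves. `φ ∈ O_K[x]` is monic of degree `m + 1`, `m = 2 g` or `m = 2 g + 1`, its derivative is
`(m + 1) (x - c_1) ... (x - c_m)` with `c_i ∈ O_K`, the critical values `φ(c_i)` are different, and
for all the embeddings of `K` in `ℂ` we have `|c_i| ^ (m + 1) ≤ A T` and `|φ(0)| ≤ A T`
(`Crit m A T φ c`). Examples: every `φ` with rational critical points and different critical values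
if `T ≥ T_0(φ)`; or all the `φ` with `φ(0) = 0` and with `c_i ∈ m! O_K`,
`|c_i| ≤ (A T) ^ {1 / (m + 1)}` and with different critical values. `t` is in the box of the elements
of `O_K` whose coordinates in an integral basis are at most `T` (`box K T`). The map `(c, t) ↦ φ - t`,
`φ(0) = 0`, from the space of dimension `m + 1` to the space of all the monic polynomials of degree
`m + 1` is finite and surjective over the algebraic closure. Let `f = φ - t` and `D = f.discr`.

The height. `vol g F` is, up to a constant which depends on `g` only, the square of the `L²` norm of
`∧_{i < g} x ^ i dx / y` on the Jacobian of `y ^ 2 = F(x)`. `height g f e` is the sum of the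
`- 1 / 2 log (vol g (σ f))` over the embeddings `σ` of `K` in `ℂ` and of the `g / 2 log (N v)` over the
places `v` which do not divide `2` and where the order of `e` is odd. It is the degree of the
Weierstrass lattice of the curve `e y ^ 2 = f(x)` (the product formula is used for `e`), up to the
places dividing `2`. The differentials of the Néron model are contained in the Weierstrass lattice, so
`[K : ℚ] h_F(J_e / K) ≤ height g f e + O(1)` for the Jacobian `J_e`, with a constant which depends on
`g` and `K` only.

The conductor. `cond g f e` is the part of the conductor of `J_e` at the places `v` which do not
divide `2` and divide `D` at most once. The exponent is `2 g` if the order of `e` is odd (the inertia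
group acts by a unipotent representation times a ramified quadratic character). If the order of `e`
is even, then it is `1` if `v` divides `D` (one node), and `0` if not (good reduction). So
`cond g f e` divides the conductor of `J_e`.

The theorem. Let `g ≥ 1`, `m = 2 g` or `2 g + 1`, `A ≥ 1`, `κ > (4 g + 3) / (16 g + 8)` and `c₀` a real
number. There are `C` and `δ > 0` such that for all `T ≥ 1` and for all `φ` with `Crit m A T φ c` the
following is true for all but `C T ^ (-δ) #(box K T)` of the `t ∈ box K T` (`FreyAll`): `D ≠ 0`, and

`height g f e + c₀ ≤ κ log (cond g f e)` for ALL `e ∈ K`, `e ≠ 0`.

The proof. `D = ± (m + 1) ^ (m + 1) ∏ (t - φ(c_i))`. For all but `C T ^ (-δ) #(box K T)` of the `t`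
the numbers `t - φ(c_i)` are almost coprime, almost squarefree and not small at all the archimedean
places, so that the primes dividing `D` exactly once have a product of norm at least
`T ^ (m [K : ℚ] - η)`, and the zeros of `f` have the absolute value at most `B T ^ {1 / (m + 1)}`. So
`height g f 1 ≤ (g m / (8 g + 4) + η) [K : ℚ] log T`. Then the contributions of the places to the
difference of the two sides of the inequality are compared one by one, for all the twists. The lemmas
of the counting were proved by helper51, helper80, helper115 and helper163.
-/

set_option autoImplicit false

open NumberField IsDedekindDomain Finset Polynomial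

namespace Pool.Agent.Results.MP_6babc4_nt.RationalCriticalPoints

open Pool.Agent.H433 Pool.Agent.H433.AC
open Pool.Agent.H433.CQ (Crit)
open Pool.Agent.H433.CR (FreyAll)

open Classical in
/-- The inequality of Frey with the slope `κ > (4 g + 3) / (16 g + 8)` for the relative heights of all
the twists of almost all the curves `y ^ 2 = φ(x) - t`, uniformly for all the polynomials `φ` of degree
`2 g + 1` or `2 g + 2` with rational critical points. -/
theorem result (g m : ℕ) (hg : 1 ≤ g) (hm : m = 2 * g ∨ m = 2 * g + 1) (K : Type) [Field K]
    [NumberField K] (A : ℝ) (hA : 1 ≤ A) (κ : ℝ) (hκ : (4 * (g : ℝ) + 3) / (16 * g + 8) < κ)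
    (c₀ : ℝ) :
    ∃ C δ : ℝ, 0 < δ ∧ ∀ T : ℕ, 1 ≤ T → ∀ (φ : (𝓞 K)[X]) (c : Fin m → 𝓞 K), Crit m A T φ c →
      (((box K T).filter fun t => ¬ FreyAll g κ c₀ (φ - Polynomial.C t)).card : ℝ) ≤
        C * (T : ℝ) ^ (-δ) * (box K T).card :=
  Pool.Agent.H433.CR.rel g m hg hm K hA hκ c₀

end Pool.Agent.Results.MP_6babc4_nt.RationalCriticalPoints
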