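import Pool.Agent.H433.AC.Rel6

/-!
# The best slope in Frey's inequality for almost all abelian covers of the projective line and all
# their twists: relative heights

`MP_6babc4_nt` (Q1, a partial answer). Frey asks for constants `κ`, `c`, depending only on the
number field `K` and on `g`, such that `h_F(A / K) ≤ κ log N_A + c` for all abelian varieties `A`
over `K` of dimension `g`, where `h_F(A / K)` is the relative (not the stable) height. We prove
this, with the best slope, for almost all members (in the sense of density, with a power saving),
and for ALL the twists of these members, of every family of abelian covers of the projective line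
which are branched over rational points.

The families. By Kummer theory the connected abelian covers of the projective line of exponent
dividing `m`, branched over `a_1, ..., a_n` (and possibly the point at infinity), correspond over
the algebraic closure to the subgroups `X` of `(ℤ / m)^n` (we allow a homomorphism
`k : X → (ℤ / m)^n`): `y_χ ^ m = e_χ ∏ (x - a_i) ^ (k_χ,i)`, `χ ∈ X`. The group of the cover is
`G = Hom(X, ℤ / m)`, the monodromy at `a_i` is `χ ↦ k_χ,i`. With the numbers `e_χ ≠ 0`,
`e_(χ + ψ) = e_χ e_ψ` up to `m`-th powers, one obtains all the twists. `A = Jac C` has the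
dimension `g = ∑_χ dm (k χ)`. Hyperelliptic and superelliptic curves with rational branch points
are the case of a cyclic `X`.

The height. Let `ω_χ = ∏ (x - a_i) ^ (-μ_i) dx`, `μ_i = k_χ,i / m` in `[0, 1)`. The differentials
`x ^ l e_χ ^ (-1 / m) ω_χ`, `l < dm (k χ)`, are a basis of the eigenspace of `χ`, and the square of
the norm of the exterior product of the `x ^ l ω_χ` is a constant times `vol (k χ)`. Let `v` be a
place which does not divide `m`, `r` the order of `e_χ` modulo `m`, `0 ≤ r < m`. Over a (tame)
extension with semistable reduction the differentials of the Néron model are regular at the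
generic points over the Gauss valuation, so they lie in the lattice spanned by the `x ^ l ω_χ`; it
is this lattice if no two branch points coincide modulo `v`, and the multiples of `x - a_i`
together with `π ^ (max (0, μ_i + μ_j - 1))` if exactly `a_i, a_j` coincide, to the first order.
The Lie algebra of the Néron model over `K` consists of the invariants of the inertia group
(Edixhoven). This gives the contributions `dm r / m` and `dm r / m - 1` (if
`r / m + μ_i + μ_j ≥ 2`) of `χ`: `jg` and `js`. Hence `[K : ℚ] h_F(A / K) ≤ relHeight k a e + O(1)`
for all `a` and all twists, and `[K : ℚ] h_F(A / K) ≥ relHeight k a e - B exc m a - O(1)`.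

The conductor. The part of the cohomology which belongs to `χ` has the dimension `rk (k χ)`. If no
two branch points coincide modulo `v`, then the inertia group acts on it by the character of
`e_χ ^ (1 / m)`; if exactly `a_i, a_j` coincide, to the first order, then by the product of this
character and a pseudoreflection, which acts on the vanishing part by the character of order
`r + k_i + k_j`. This gives the exponents `fg` and `fs`: `cond k a e` divides `N_A`, and
`log N_A ≤ log (cond k a e) + B exc m a + O(1)`.

The best slope `relSlope k` is the smallest `κ` such that `jg ≤ κ fg` for the classes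
`φ ∈ Hom(X, ℤ / m)` of all twists, and such that the leading term of the difference of the height
and `κ` times the logarithm of the conductor, for the worst classes at the simple places, is not
positive. It is at most `1 / 2` for every family, and it is `(g + 1) / (4 g + 2)` for the quadratic
twists of hyperelliptic curves of genus `g`. For `κ > relSlope k` we have
`[K : ℚ] h_F(A / K) ≤ κ log N_A + C` for almost all `a` and for all twists; for
`0 ≤ κ < relSlope k` and every `T` almost all `a` have a twist with
`[K : ℚ] h_F(A / K) ≥ κ log N_A + T`.
-/

set_option autoImplicit false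

open NumberField Finset

namespace Pool.Agent.Results.MP_6babc4_nt.TwistsOfAbelianCovers

open Pool.Agent.H433.AC

open Classical in
/-- The best slope in Frey's inequality for the relative height, for almost all abelian covers of
the projective line with rational branch points and all their twists. -/
theorem result {m n : ℕ} [NeZero m] {X : Type} [AddCommGroup X] [Fintype X]
    (k : X →+ (Fin n → ZMod m)) (hr : ∃ χ, 2 ≤ rk (k χ)) :
    relSlope k ≤ 1 / 2 ∧
    (∀ g l : ℕ, 1 ≤ g → (l = 2 * g + 1 ∨ l = 2 * g + 2) →
      relSlope (hyp l) = ((g : ℝ) + 1) / (4 * g + 2)) ∧
    ∀ (K : Type) [Field K] [NumberField K],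
      (∀ κ : ℝ, relSlope k < κ → ∃ C δ : ℝ, 0 < δ ∧ ∀ H : ℕ, 1 ≤ H →
        (((Fintype.piFinset fun _ : Fin n => box K H).filter fun a =>
          ¬ FreyAll κ C k a).card : ℝ) ≤
            C * (H : ℝ) ^ (-δ) * ((Fintype.piFinset fun _ : Fin n => box K H).card : ℝ)) ∧
      (∀ κ B T : ℝ, 0 ≤ κ → κ < relSlope k → 0 ≤ B → ∃ C δ : ℝ, 0 < δ ∧ ∀ H : ℕ, 1 ≤ H →
        (((Fintype.piFinset fun _ : Fin n => box K H).filter fun a =>
          ¬ FreyFails κ B T k a).card : ℝ) ≤
            C * (H : ℝ) ^ (-δ) * ((Fintype.piFinset fun _ : Fin n => box K H).card : ℝ)) :=
  ⟨relSlope_le k hr, fun _ _ hg hl => relSlope_hyp hg hl, fun K _ _ =>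
    ⟨fun κ hκ => rel_upper k K hr ⟨_, admits_half k⟩ κ hκ,
      fun κ B T h0 h1 h2 => rel_lower k K hr κ B T h0 h1 h2⟩⟩

end Pool.Agent.Results.MP_6babc4_nt.TwistsOfAbelianCovers
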